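import Mathlib

set_option autoImplicit false

open Metric Set Filter Topology

namespace Pool.Agent.Results.MP_7ec995_an.ProjectivePlane

/-- `ℂ³` with its Hermitian inner product. -/
abbrev E3 : Type := EuclideanSpace ℂ (Fin 3)

/-- The complex projective plane `P²(ℂ)`: the lines through the origin of `ℂ³`. It is a compact
Kähler manifold with the Fubini-Study metric. -/
abbrev P2 : Type := Projectivization ℂ E3

/-- The angle between two nonzero vectors, `arccos (|⟨u, v⟩| / (‖u‖ ‖v‖))`. -/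
noncomputable def angle (u v : E3) : ℝ := Real.arccos (‖(inner ℂ u v : ℂ)‖ / (‖u‖ * ‖v‖))

/-- The Fubini-Study distance of `P²(ℂ)`: `d([u], [v]) = arccos (|⟨u, v⟩| / (‖u‖ ‖v‖))`, the distance
induced by the Fubini-Study (Kähler) metric. -/
noncomputable def dFS (x y : P2) : ℝ := angle x.rep y.rep

theorem angle_smul {a b : ℂ} (ha : a ≠ 0) (hb : b ≠ 0) (u v : E3) :
    angle (a • u) (b • v) = angle u v := by
  unfold angle
  rw [inner_smul_left, inner_smul_right, norm_mul, norm_mul, norm_smul, norm_smul,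
    RCLike.norm_conj]
  congr 1
  have h1 : ‖a‖ ≠ 0 := norm_ne_zero_iff.2 ha
  have h2 : ‖b‖ ≠ 0 := norm_ne_zero_iff.2 hb
  rw [show ‖a‖ * (‖b‖ * ‖(inner ℂ u v : ℂ)‖) = (‖a‖ * ‖b‖) * ‖(inner ℂ u v : ℂ)‖ by ring,
    show ‖a‖ * ‖u‖ * (‖b‖ * ‖v‖) = (‖a‖ * ‖b‖) * (‖u‖ * ‖v‖) by ring,
    mul_div_mul_left _ _ (mul_ne_zero h1 h2)]

/-- `dFS` computed with arbitrary homogeneous coordinates -/
theorem dFS_mk (u v : E3) (hu : u ≠ 0) (hv : v ≠ 0) :
    dFS (Projectivization.mk ℂ u hu) (Projectivization.mk ℂ v hv) = angle u v := by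
  unfold dFS
  obtain ⟨a, ha⟩ := Projectivization.exists_smul_eq_mk_rep ℂ u hu
  obtain ⟨b, hb⟩ := Projectivization.exists_smul_eq_mk_rep ℂ v hv
  rw [← ha, ← hb]
  exact angle_smul a.ne_zero b.ne_zero u v

/-- The unit polydisk `Δ^{n+1}`, as the set of `(z, w)` with `|z_i| < 1` and `|w| < 1`. -/
def polydisk (n : ℕ) : Set ((Fin n → ℂ) × ℂ) := {p | (∀ i, ‖p.1 i‖ < 1) ∧ ‖p.2‖ < 1}

/-- The Hartogs figure `H_n^1(r) = [Δⁿ(1-r) × Δ] ∪ [Δⁿ × A(r,1)]`. -/
def hartogs (n : ℕ) (r : ℝ) : Set ((Fin n → ℂ) × ℂ) :=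
  {p | (∀ i, ‖p.1 i‖ < 1 - r) ∧ ‖p.2‖ < 1} ∪ {p | (∀ i, ‖p.1 i‖ < 1) ∧ r < ‖p.2‖ ∧ ‖p.2‖ < 1}

/-- `f` is a holomorphic map from the polydisk to `P²(ℂ)`: near every point it is given by
holomorphic homogeneous coordinates without common zeros. -/
def HolomorphicMap (n : ℕ) (f : (Fin n → ℂ) × ℂ → P2) : Prop :=
  ∀ p ∈ polydisk n, ∃ U : Set ((Fin n → ℂ) × ℂ), IsOpen U ∧ p ∈ U ∧
    ∃ v : (Fin n → ℂ) × ℂ → E3, DifferentiableOn ℂ v U ∧
      ∀ z ∈ U, ∃ h : v z ≠ 0, f z = Projectivization.mk ℂ (v z) h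

/-- Equicontinuity of the family `F` at the point `p` of the open set `U`. -/
def EquicontinuousAtPt {n : ℕ} (F : Set ((Fin n → ℂ) × ℂ → P2)) (U : Set ((Fin n → ℂ) × ℂ))
    (p : (Fin n → ℂ) × ℂ) : Prop :=
  ∀ ε : ℝ, 0 < ε → ∃ δ : ℝ, 0 < δ ∧ ∀ f ∈ F, ∀ z ∈ U, dist z p < δ → dFS (f z) (f p) < ε

/-- The family `F` is equicontinuous on the open set `U`. -/
def Equicont {n : ℕ} (F : Set ((Fin n → ℂ) × ℂ → P2)) (U : Set ((Fin n → ℂ) × ℂ)) : Prop :=
  ∀ p ∈ U, EquicontinuousAtPt F U p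

section construction

variable {n : ℕ} (i : Fin n) (a : ℝ)

/-- the homogeneous coordinates `(z_i - a, w, t)` -/
noncomputable def V (t : ℂ) (p : (Fin n → ℂ) × ℂ) : E3 :=
  WithLp.toLp 2 ![p.1 i - a, p.2, t]

theorem V_ne (t : ℂ) (p : (Fin n → ℂ) × ℂ) (h : p.1 i - a ≠ 0 ∨ p.2 ≠ 0 ∨ t ≠ 0) :
    V i a t p ≠ 0 := by
  intro h0
  have h1 : ∀ j, V i a t p j = 0 := fun j => by rw [h0]; rfl
  have e0 := h1 0
  have e1 := h1 1
  have e2 := h1 2
  simp only [V, Matrix.cons_val_zero, Matrix.cons_val_one, Matrix.cons_val] at e0 e1 e2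
  rcases h with h | h | h
  · exact h e0
  · exact h e1
  · exact h e2

theorem V_continuous : Continuous fun q : ℂ × ((Fin n → ℂ) × ℂ) => V i a q.1 q.2 := by
  unfold V
  refine (PiLp.continuous_toLp 2 _).comp ?_
  refine continuous_pi fun j => ?_
  fin_cases j
  · simp only [Fin.zero_eta, Matrix.cons_val_zero]; fun_prop
  · simp only [Fin.mk_one, Matrix.cons_val_one, Matrix.cons_val_zero]; fun_prop
  · simp only [Fin.reduceFinMk, Matrix.cons_val]; fun_prop

theorem V_differentiable (t : ℂ) : Differentiable ℂ (V i a t) := by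
  unfold V
  rw [differentiable_euclidean]
  intro j
  fin_cases j
  · simp; fun_prop
  · simp
  · simp

theorem one_div_ne (k : ℕ) : (1 / ((k : ℂ) + 1)) ≠ 0 :=
  one_div_ne_zero (by exact_mod_cast Nat.succ_ne_zero k)

/-- the maps `f_k = [z_i - a : w : 1/(k+1)]` -/
noncomputable def fk (k : ℕ) (p : (Fin n → ℂ) × ℂ) : P2 :=
  Projectivization.mk ℂ (V i a (1 / ((k : ℂ) + 1)) p)
    (V_ne i a _ p (Or.inr (Or.inr (one_div_ne k))))

theorem angle_self (u : E3) (hu : u ≠ 0) : angle u u = 0 := by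
  unfold angle
  rw [inner_self_eq_norm_sq_to_K]
  have h1 : ‖u‖ ≠ 0 := norm_ne_zero_iff.2 hu
  have h2 : ‖((RCLike.ofReal ‖u‖ : ℂ)) ^ 2‖ = ‖u‖ * ‖u‖ := by
    rw [norm_pow]; simp [sq]
  rw [h2, div_self (mul_ne_zero h1 h1), Real.arccos_one]

end construction

/-- For all `n ≥ 1` and `0 < r < 1` there is a family of holomorphic maps from the polydisk
`Δ^{n+1}` to the projective plane which is equicontinuous on the Hartogs figure `H_n^1(r)` but not
at some point of `Δ^{n+1}`. -/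
theorem result (n : ℕ) (hn : 1 ≤ n) (r : ℝ) (hr0 : 0 < r) (hr1 : r < 1) :
    ∃ F : Set ((Fin n → ℂ) × ℂ → P2),
      (∀ f ∈ F, HolomorphicMap n f) ∧ Equicont F (hartogs n r) ∧
        ∃ p ∈ polydisk n, ¬ EquicontinuousAtPt F (polydisk n) p := by
  let i : Fin n := ⟨0, by omega⟩
  let a : ℝ := 1 - r / 2
  have ha0 : 0 < a := by simp only [a]; linarith
  have ha1 : a < 1 := by simp only [a]; linarith
  refine ⟨Set.range (fk i a), ?_, ?_, ?_⟩
  · rintro _ ⟨k, rfl⟩ p _
    refine ⟨Set.univ, isOpen_univ, mem_univ _, V i a (1 / ((k : ℂ) + 1)),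
      (V_differentiable i a _).differentiableOn, fun z _ => ⟨_, rfl⟩⟩
  · intro p hp ε hε
    have hne : p.1 i - a ≠ 0 ∨ p.2 ≠ 0 := by
      rcases hp with hp | hp
      · left
        intro h
        have h1 : p.1 i = a := by linear_combination h
        have h2 := hp.1 i
        rw [h1, Complex.norm_real, Real.norm_of_nonneg ha0.le] at h2
        simp only [a] at h2
        linarith
      · right
        intro h
        have h2 := hp.2.1
        rw [h, norm_zero] at h2
        linarith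
    have hV : ∀ t, V i a t p ≠ 0 := fun t => V_ne i a t p (by tauto)
    -- the angle is jointly continuous at `(t, p)`
    let Φ : ℂ × ((Fin n → ℂ) × ℂ) → ℝ := fun q => angle (V i a q.1 q.2) (V i a q.1 p)
    have hΦ : ∀ t : ℂ, ∀ᶠ q in 𝓝 (t, p), Φ q < ε := by
      intro t
      have hc1 : Continuous fun q : ℂ × ((Fin n → ℂ) × ℂ) => V i a q.1 q.2 := V_continuous i a
      have hc2 : Continuous fun q : ℂ × ((Fin n → ℂ) × ℂ) => V i a q.1 p :=
        hc1.comp (continuous_fst.prodMk continuous_const)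
      have hc : ContinuousAt Φ (t, p) := by
        have hnum : ContinuousAt (fun q : ℂ × ((Fin n → ℂ) × ℂ) =>
            ‖(inner ℂ (V i a q.1 q.2) (V i a q.1 p) : ℂ)‖) (t, p) :=
          (hc1.inner hc2).norm.continuousAt
        have hden : ContinuousAt (fun q : ℂ × ((Fin n → ℂ) × ℂ) =>
            ‖V i a q.1 q.2‖ * ‖V i a q.1 p‖) (t, p) :=
          (hc1.norm.mul hc2.norm).continuousAt
        have hq := hnum.div hden (mul_ne_zero (norm_ne_zero_iff.2 (hV t))
          (norm_ne_zero_iff.2 (hV t)))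
        exact Real.continuous_arccos.continuousAt.comp hq
      have h0 : Φ (t, p) < ε := by
        simp only [Φ]
        rw [angle_self _ (hV t)]
        exact hε
      exact hc.eventually_lt_const h0
    have htube : ∀ᶠ z in 𝓝 p, ∀ t ∈ closedBall (0 : ℂ) 1, Φ (t, z) < ε := by
      refine (isCompact_closedBall (0 : ℂ) 1).eventually_forall_of_forall_eventually ?_
      intro t _
      have := hΦ t
      rw [nhds_prod_eq] at this
      rw [nhds_prod_eq]
      exact (Filter.eventually_swap_iff).1 this |>.mono fun q hq => hq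
    obtain ⟨δ, hδ, hball⟩ := Metric.eventually_nhds_iff.1 htube
    refine ⟨δ, hδ, ?_⟩
    rintro _ ⟨k, rfl⟩ z _ hz
    have hk : (1 / ((k : ℂ) + 1)) ∈ closedBall (0 : ℂ) 1 := by
      rw [mem_closedBall_zero_iff, norm_div, norm_one]
      have h1 : ‖(k : ℂ) + 1‖ = (k : ℝ) + 1 := by
        have : ((k : ℂ) + 1) = ((k + 1 : ℕ) : ℂ) := by push_cast; ring
        rw [this, Complex.norm_natCast]; push_cast; ring
      rw [h1, div_le_one (by positivity)]
      have : (0 : ℝ) ≤ k := by positivity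
      linarith
    have := hball hz _ hk
    simp only [fk]
    rw [dFS_mk]
    exact this
  · -- failure at the point `z_i = a`, `w = 0`
    let p : (Fin n → ℂ) × ℂ := (fun _ => (a : ℂ), 0)
    have hp : p ∈ polydisk n := by
      refine ⟨fun j => ?_, by simp [p]⟩
      simp only [p]
      rw [Complex.norm_real, Real.norm_of_nonneg ha0.le]
      exact ha1
    refine ⟨p, hp, ?_⟩
    intro heq
    obtain ⟨δ, hδ, h⟩ := heq (Real.pi / 4) (by positivity)
    obtain ⟨k, hk⟩ := exists_nat_gt (max (1 / δ) (2 / r))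
    have hk1 : 1 / δ < (k : ℝ) + 1 := by linarith [le_max_left (1 / δ) (2 / r)]
    have hk2 : 2 / r < (k : ℝ) + 1 := by linarith [le_max_right (1 / δ) (2 / r)]
    have hk0 : (0 : ℝ) < (k : ℝ) + 1 := by positivity
    have hs1 : 1 / ((k : ℝ) + 1) < δ := by
      rw [div_lt_iff₀ hδ] at hk1
      rw [div_lt_iff₀ hk0]
      linarith
    have hs2 : 1 / ((k : ℝ) + 1) < r / 2 := by
      rw [div_lt_iff₀ hr0] at hk2
      rw [div_lt_iff₀ hk0]
      linarith
    have hs0 : 0 < 1 / ((k : ℝ) + 1) := by positivity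
    set s : ℝ := 1 / ((k : ℝ) + 1) with hs
    have hsC : (1 / ((k : ℂ) + 1)) = (s : ℂ) := by rw [hs]; push_cast; ring
    let z : (Fin n → ℂ) × ℂ := (fun _ => ((a + s : ℝ) : ℂ), 0)
    have hz : z ∈ polydisk n := by
      refine ⟨fun j => ?_, by simp [z]⟩
      simp only [z]
      rw [Complex.norm_real, Real.norm_of_nonneg (by linarith)]
      simp only [a]
      linarith
    have hzp : dist z p < δ := by
      rw [Prod.dist_eq]
      refine max_lt ?_ (by simp [z, p, hδ])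
      rw [dist_pi_lt_iff hδ]
      intro j
      simp only [z, p]
      rw [Complex.dist_eq]
      have : (((a + s : ℝ) : ℂ) - (a : ℂ)) = (s : ℂ) := by push_cast; ring
      rw [this, Complex.norm_real, Real.norm_of_nonneg hs0.le]
      exact hs1
    have h1 := h (fk i a k) ⟨k, rfl⟩ z hz hzp
    simp only [fk] at h1
    rw [dFS_mk, hsC] at h1
    -- the two vectors are `(s, 0, s)` and `(0, 0, s)`
    have e1 : V i a (s : ℂ) z = WithLp.toLp 2 ![(s : ℂ), 0, (s : ℂ)] := by
      unfold V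
      congr 2
      simp only [z]
      push_cast
      ring
    have e2 : V i a (s : ℂ) p = WithLp.toLp 2 ![(0 : ℂ), 0, (s : ℂ)] := by
      unfold V
      congr 2
      simp only [p]
      ring
    rw [e1, e2] at h1
    have n1 : ‖(WithLp.toLp 2 ![(s : ℂ), 0, (s : ℂ)] : E3)‖ = Real.sqrt 2 * s := by
      rw [EuclideanSpace.norm_eq, Fin.sum_univ_three]
      simp only [Matrix.cons_val_zero, Matrix.cons_val_one, Matrix.cons_val]
      rw [Complex.norm_real, Real.norm_of_nonneg hs0.le, norm_zero]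
      rw [show s ^ 2 + 0 ^ 2 + s ^ 2 = 2 * s ^ 2 by ring, Real.sqrt_mul (by norm_num),
        Real.sqrt_sq hs0.le]
    have n2 : ‖(WithLp.toLp 2 ![(0 : ℂ), 0, (s : ℂ)] : E3)‖ = s := by
      rw [EuclideanSpace.norm_eq, Fin.sum_univ_three]
      simp only [Matrix.cons_val_zero, Matrix.cons_val_one, Matrix.cons_val]
      rw [Complex.norm_real, Real.norm_of_nonneg hs0.le, norm_zero]
      rw [show (0 : ℝ) ^ 2 + 0 ^ 2 + s ^ 2 = s ^ 2 by ring, Real.sqrt_sq hs0.le]
    have n3 : ‖(inner ℂ (WithLp.toLp 2 ![(s : ℂ), 0, (s : ℂ)] : E3)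
        (WithLp.toLp 2 ![(0 : ℂ), 0, (s : ℂ)] : E3) : ℂ)‖ = s * s := by
      rw [PiLp.inner_apply, Fin.sum_univ_three]
      simp only [Matrix.cons_val_zero, Matrix.cons_val_one, Matrix.cons_val]
      simp [abs_of_pos hs0]
      ring
    unfold angle at h1
    rw [n1, n2, n3] at h1
    have e3 : s * s / (Real.sqrt 2 * s * s) = 1 / Real.sqrt 2 := by
      field_simp
    have e4 : Real.arccos (1 / Real.sqrt 2) = Real.pi / 4 := by
      have : (1 : ℝ) / Real.sqrt 2 = Real.cos (Real.pi / 4) := by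
        rw [Real.cos_pi_div_four]
        rw [div_eq_div_iff (by positivity) (by norm_num), one_mul, Real.mul_self_sqrt (by norm_num)]
      rw [this, Real.arccos_cos (by positivity) (by linarith [Real.pi_pos])]
    rw [e3, e4] at h1
    exact lt_irrefl _ h1

end Pool.Agent.Results.MP_7ec995_an.ProjectivePlane
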